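import Pool.Agent.K3h26.R5.Stm

/-!
# Dimension five (MP_c4753b_co): the set `F` disjoint from its translates (brick L1)
-/

set_option autoImplicit false

open MeasureTheory Filter Topology Set
open scoped ENNReal

namespace Pool.Agent.K3h3.R5

open H947TP Pool.Agent.K3h26.R5

theorem n1_add (x y : Fin 5 → ℝ) : n1 (x + y) ≤ n1 x + n1 y := by
  unfold n1
  simp only [Pi.add_apply]
  linarith [abs_add_le (x 0) (y 0), abs_add_le (x 1) (y 1), abs_add_le (x 2) (y 2)]

theorem ni_add (x y : Fin 5 → ℝ) : ni (x + y) ≤ ni x + ni y := by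
  unfold ni
  simp only [Pi.add_apply]
  refine max_le ?_ (max_le ?_ ?_)
  · exact (abs_add_le _ _).trans (add_le_add (le_max_left _ _) (le_max_left _ _))
  · exact (abs_add_le _ _).trans (add_le_add ((le_max_left _ _).trans (le_max_right _ _))
      ((le_max_left _ _).trans (le_max_right _ _)))
  · exact (abs_add_le _ _).trans (add_le_add ((le_max_right _ _).trans (le_max_right _ _))
      ((le_max_right _ _).trans (le_max_right _ _)))

theorem my_add (x y : Fin 5 → ℝ) : my (x + y) ≤ my x + my y := by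
  unfold my
  simp only [Pi.add_apply]
  refine max_le ?_ ?_
  · exact (abs_add_le _ _).trans (add_le_add (le_max_left _ _) (le_max_left _ _))
  · exact (abs_add_le _ _).trans (add_le_add (le_max_right _ _) (le_max_right _ _))

theorem n1_neg (x : Fin 5 → ℝ) : n1 (-x) = n1 x := by
  unfold n1
  simp only [Pi.neg_apply, abs_neg]

theorem ni_neg (x : Fin 5 → ℝ) : ni (-x) = ni x := by
  unfold ni
  simp only [Pi.neg_apply, abs_neg]

theorem my_neg (x : Fin 5 → ℝ) : my (-x) = my x := by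
  unfold my
  simp only [Pi.neg_apply, abs_neg]

theorem my_nonneg (x : Fin 5 → ℝ) : 0 ≤ my x := (abs_nonneg _).trans (le_max_left _ _)

theorem sy_le (x : Fin 5 → ℝ) : sy x ≤ my x := by
  unfold sy my
  have h1 := le_max_left |x 3| |x 4|
  have h2 := le_max_right |x 3| |x 4|
  linarith

theorem abs_lt_three {x : Fin 5 → ℝ} (h1 : n1 x < 3) (h3 : my x < 1) (l : Fin 5) : |x l| < 3 := by
  unfold n1 at h1
  unfold my at h3
  have a0 := abs_nonneg (x 0)
  have a1 := abs_nonneg (x 1)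
  have a2 := abs_nonneg (x 2)
  have b1 := le_max_left |x 3| |x 4|
  have b2 := le_max_right |x 3| |x 4|
  fin_cases l <;> simp only [Fin.mk_zero, Fin.mk_one, Fin.reduceFinMk] <;> linarith

theorem Pt_open (t : ℝ) : IsOpen (Pt t) := by
  have e : Pt t = {x : Fin 5 → ℝ | n1 x < 3 / 2 * t} ∩ ({x : Fin 5 → ℝ | ni x < t} ∩
    {x : Fin 5 → ℝ | my x < t / 2}) := rfl
  rw [e]
  have c1 : Continuous n1 := by unfold n1; fun_prop
  have c2 : Continuous ni := by unfold ni; fun_prop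
  have c3 : Continuous my := by unfold my; fun_prop
  exact (isOpen_lt c1 continuous_const).inter ((isOpen_lt c2 continuous_const).inter
    (isOpen_lt c3 continuous_const))

theorem Pt_fin : volume (Pt 1) ≠ ⊤ := by
  have h : Pt 1 ⊆ Metric.closedBall (0 : Fin 5 → ℝ) 3 := by
    rintro x ⟨h1, -, h3⟩
    rw [mem_closedBall_zero_iff, pi_norm_le_iff_of_nonneg (by norm_num)]
    intro l
    rw [Real.norm_eq_abs]
    exact (abs_lt_three (by linarith) (by linarith) l).le
  exact ((measure_mono h).trans_lt measure_closedBall_lt_top).ne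

theorem big (lam ε : ℝ) (h0 : 0 ≤ lam) (h1 : lam ≤ 1) (h2 : 0 < ε) (h3 : ε ≤ 1 / 10)
    (v : Fin 5 → ℝ) (h : Sep lam ε v) : ∃ l, 1 / 2 ≤ |v l| := by
  by_contra hcon
  push Not at hcon
  have a0 := hcon 0
  have a1 := hcon 1
  have a2 := hcon 2
  have a3 := hcon 3
  have a4 := hcon 4
  have hmy : my v < 1 / 2 := max_lt a3 a4
  have hmy0 := my_nonneg v
  have hni : ni v < 1 / 2 := max_lt a0 (max_lt a1 a2)
  have hsy := sy_le v
  have hrh : rh lam v ≤ 1 := by
    unfold rh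
    nlinarith
  rcases h with h | h | h
  · unfold n1 at h
    nlinarith
  · nlinarith
  · linarith

theorem fin_PP (lam ε : ℝ) (Λ : AddSubgroup (Fin 5 → ℝ)) (h0 : 0 ≤ lam) (h1 : lam ≤ 1)
    (h2 : 0 < ε) (h3 : ε ≤ 1 / 10) (hsep : ∀ v ∈ Λ, v ≠ 0 → Sep lam ε v) : (PP Λ).Finite := by
  refine Set.Finite.of_finite_image (f := fun (v : Fin 5 → ℝ) (i : Fin 5) => ⌊v i * 2⌋) ?_ ?_
  · refine (Set.finite_Icc (fun _ : Fin 5 => (-7 : ℤ)) (fun _ => (7 : ℤ))).subset ?_
    rintro _ ⟨v, ⟨-, -, hv1, -, hv3, -⟩, rfl⟩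
    refine ⟨fun i => ?_, fun i => ?_⟩
    · have h := abs_lt.1 (abs_lt_three hv1 hv3 i)
      rw [Int.le_floor]
      push_cast
      linarith [h.1]
    · have h := abs_lt.1 (abs_lt_three hv1 hv3 i)
      have h4 : (⌊v i * 2⌋ : ℝ) ≤ v i * 2 := Int.floor_le _
      have h5 : (⌊v i * 2⌋ : ℝ) ≤ ((7 : ℤ) : ℝ) := by
        push_cast
        linarith [h.2]
      exact_mod_cast h5
  · intro v hv w hw hvw
    by_contra hne
    have hne' : v - w ≠ 0 := sub_ne_zero.2 hne
    obtain ⟨l, hl⟩ := big lam ε h0 h1 h2 h3 _ (hsep _ (Λ.sub_mem hv.1 hw.1) hne')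
    have h4 : ⌊v l * 2⌋ = ⌊w l * 2⌋ := congrFun hvw l
    have h5 := Int.abs_sub_lt_one_of_floor_eq_floor h4
    rw [Pi.sub_apply] at hl
    have h6 : |v l * 2 - w l * 2| = |v l - w l| * 2 := by
      rw [← sub_mul, abs_mul, abs_of_pos (by norm_num : (0 : ℝ) < 2)]
    rw [h6] at h5
    linarith

theorem t_L1 (hVOLP : S_VOLP) : S_L1 := by
  intro lam ε Λ h0 h1 h2 h3 hsep
  have hfin := fin_PP lam ε Λ h0 h1 h2 h3 hsep
  refine ⟨hfin, Pt 1 \ ⋃ v ∈ PP Λ, tr v (Pt 1), ?_, sdiff_subset, ?_, ?_, ?_⟩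
  · have hm : ∀ v : Fin 5 → ℝ, MeasurableSet (tr v (Pt 1)) := by
      intro v
      exact ((Homeomorph.addLeft v).isOpenMap _ (Pt_open 1)).measurableSet
    exact (Pt_open 1).measurableSet.diff (hfin.measurableSet_biUnion fun v _ => hm v)
  · rintro x ⟨x1, x2, x3⟩
    refine ⟨⟨by linarith, by linarith, by linarith⟩, ?_⟩
    intro hmem
    rw [mem_iUnion₂] at hmem
    obtain ⟨v, hv, y, ⟨y1, y2, y3⟩, hxy⟩ := hmem
    have hxy' : v = x + -y := by
      rw [← hxy]
      ext i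
      simp
    have e1 := n1_add x (-y)
    have e2 := ni_add x (-y)
    have e3 := my_add x (-y)
    rw [n1_neg, ← hxy'] at e1
    rw [ni_neg, ← hxy'] at e2
    rw [my_neg, ← hxy'] at e3
    have hmy0 := my_nonneg v
    have hmy1 : my v < 1 := by linarith
    have hsy := sy_le v
    have hrh : rh lam v ≤ 1 := by
      unfold rh
      nlinarith
    rcases hsep v hv.1 hv.2.1 with h | h | h
    · nlinarith
    · nlinarith
    · linarith
  · intro v hv hv0
    rw [Set.disjoint_left]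
    rintro x ⟨hx, hx'⟩ ⟨y, ⟨hy, hy'⟩, hxy⟩
    have hxy' : v = x + -y := by
      rw [← hxy]
      ext i
      simp
    have e1 := n1_add x (-y)
    have e2 := ni_add x (-y)
    have e3 := my_add x (-y)
    rw [n1_neg, ← hxy'] at e1
    rw [ni_neg, ← hxy'] at e2
    rw [my_neg, ← hxy'] at e3
    obtain ⟨x1, x2, x3⟩ := hx
    obtain ⟨y1, y2, y3⟩ := hy
    by_cases hpsi : 0 ≤ psi v
    · apply hx'
      rw [mem_iUnion₂]
      exact ⟨v, ⟨hv, hv0, by linarith, by linarith, by linarith, hpsi⟩, y, ⟨y1, y2, y3⟩, hxy⟩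
    · apply hy'
      rw [mem_iUnion₂]
      refine ⟨-v, ⟨Λ.neg_mem hv, neg_ne_zero.2 hv0, by rw [n1_neg]; linarith,
        by rw [ni_neg]; linarith, by rw [my_neg]; linarith, ?_⟩, x, ⟨x1, x2, x3⟩, ?_⟩
      · have : psi (-v) = - psi v := by
          unfold psi
          simp only [Pi.neg_apply]
          ring
        rw [this]
        linarith
      · show -v + x = y
        rw [← hxy]
        simp
  · have e1 : (Pt 1 \ ⋃ v ∈ PP Λ, tr v (Pt 1)) =
        Pt 1 \ ⋃ v ∈ hfin.toFinset, (Pt 1 ∩ tr v (Pt 1)) := by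
      ext x
      simp only [Set.mem_sdiff, mem_iUnion₂, Set.Finite.mem_toFinset, mem_inter_iff, not_exists]
      constructor
      · rintro ⟨h1, h2⟩
        exact ⟨h1, fun v hv h3 => h2 v hv h3.2⟩
      · rintro ⟨h1, h2⟩
        exact ⟨h1, fun v hv h3 => h2 v hv ⟨h1, h3⟩⟩
    have hnn : ∀ v ∈ hfin.toFinset, 0 ≤ ov v := fun v _ => ENNReal.toReal_nonneg
    have hov : ∀ v, volume (Pt 1 ∩ tr v (Pt 1)) = ENNReal.ofReal (ov v) := by
      intro v
      unfold ov
      rw [ENNReal.ofReal_toReal]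
      exact ((measure_mono inter_subset_left).trans_lt (lt_top_iff_ne_top.2 Pt_fin)).ne
    have h4 : volume (⋃ v ∈ hfin.toFinset, (Pt 1 ∩ tr v (Pt 1))) ≤
        ENNReal.ofReal (∑ v ∈ hfin.toFinset, ov v) := by
      refine (measure_biUnion_finset_le _ _).trans ?_
      rw [ENNReal.ofReal_sum_of_nonneg hnn]
      exact Finset.sum_le_sum fun v _ => (hov v).le
    rw [finsum_mem_eq_finite_toFinset_sum _ hfin, ENNReal.ofReal_sub _ (Finset.sum_nonneg hnn), e1]
    have h5 : ENNReal.ofReal 4 ≤ volume (Pt 1) := by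
      have := hVOLP 1 one_pos
      norm_num at this ⊢
      exact this
    calc ENNReal.ofReal 4 - ENNReal.ofReal (∑ v ∈ hfin.toFinset, ov v)
        ≤ volume (Pt 1) - volume (⋃ v ∈ hfin.toFinset, (Pt 1 ∩ tr v (Pt 1))) :=
          tsub_le_tsub h5 h4
      _ ≤ _ := le_measure_sdiff

end Pool.Agent.K3h3.R5
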